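import Mathlib
import Pool.Agent.W438.CY.Stm

set_option autoImplicit false

namespace Pool.Agent.W340.CY

open Pool.Agent.W438.CY Function

theorem I_congr {p q : Prop} (h : p ↔ q) : I p = I q := by rw [propext h]

theorem I_true : I True = 1 := by unfold I; simp

theorem val_add_one (m : ℕ) (i : Fin (m + 2)) :
    ((i + 1 : Fin (m + 2)) : ℕ) = ((i : ℕ) + 1) % (m + 2) := by
  rw [Fin.val_add]; simp

theorem rot_one {q m : ℕ} {f : (Fin (m + 2) → Fin q) → ℝ} {B : ℕ → (ℕ → Fin q) → ℝ}
    (G : Good q (m + 2) f B) (y : Fin (m + 2) → Fin q) : f (fun i => y (i + 1)) = f y := by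
  refine G.rot y _ (fun i j h => ?_)
  have : j = i + 1 := Fin.ext (by rw [h, val_add_one])
  rw [this]

theorem rot_fin {q m : ℕ} {f : (Fin (m + 2) → Fin q) → ℝ} {B : ℕ → (ℕ → Fin q) → ℝ}
    (G : Good q (m + 2) f B) (p : Fin (m + 2)) (y : Fin (m + 2) → Fin q) :
    f (fun i => y (i + p)) = f y := by
  revert y
  refine Fin.induction ?_ (fun c ih => ?_) p
  · intro y; simp
  · intro y
    have h := ih (fun i => y (i + 1))
    rw [rot_one G] at h
    rw [← h]
    congr 1
    funext i
    congr 1
    rw [← Fin.coeSucc_eq_succ]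
    abel

theorem sum_rot {q m : ℕ} {f : (Fin (m + 2) → Fin q) → ℝ} {B : ℕ → (ℕ → Fin q) → ℝ}
    (G : Good q (m + 2) f B) (p : Fin (m + 2)) (Φ : (Fin (m + 2) → Fin q) → ℝ) :
    ∑ z, f z * Φ z = ∑ w, f w * Φ (fun i => w (i - p)) := by
  apply Fintype.sum_equiv (Equiv.arrowCongr (Equiv.subRight p) (Equiv.refl (Fin q)))
  intro z
  have h1 : (Equiv.arrowCongr (Equiv.subRight p) (Equiv.refl (Fin q))) z = fun i => z (i + p) := by
    funext i
    simp [Equiv.arrowCongr, Equiv.subRight]
  rw [h1, rot_fin G p z]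
  congr 2
  funext i
  simp

theorem main_sum {q m : ℕ} {f : (Fin (m + 2) → Fin q) → ℝ} {B : ℕ → (ℕ → Fin q) → ℝ}
    (G : Good q (m + 2) f B) (p : Fin (m + 2)) (e : (Fin (m + 1) → Fin q) → ℕ → Fin q)
    (he : ∀ z (i : Fin (m + 1)), e z i = z i) (K : ℝ)
    (hK : ∀ x : ℕ → Fin q,
      ∑ c, f (fun i : Fin (m + 2) => if (i : ℕ) = 0 then c else x ((i : ℕ) - 1))
        = K * B (m + 1) x)
    (Ψ : (Fin (m + 1) → Fin q) → Prop) :
    ∑ z, f z * I (Ψ (fun a => z (a.succ + p))) = K * ∑ x, B (m + 1) (e x) * I (Ψ x) := by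
  rw [sum_rot G p (fun z => I (Ψ (fun a => z (a.succ + p))))]
  have h0 : ∀ w : Fin (m + 2) → Fin q,
      (fun a : Fin (m + 1) => (fun i => w (i - p)) (a.succ + p)) = fun a => w a.succ := by
    intro w; funext a; simp
  simp only [h0]
  rw [← (Fin.consEquiv (fun _ : Fin (m + 2) => Fin q)).sum_comp, Fintype.sum_prod_type_right,
    Finset.mul_sum]
  refine Finset.sum_congr rfl (fun x _ => ?_)
  have h1 : ∀ c : Fin q, f ((Fin.consEquiv (fun _ : Fin (m + 2) => Fin q)) (c, x)) *
      I (Ψ fun a => (Fin.consEquiv (fun _ : Fin (m + 2) => Fin q)) (c, x) a.succ)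
      = f (fun i : Fin (m + 2) => if (i : ℕ) = 0 then c else (e x) ((i : ℕ) - 1)) * I (Ψ x) := by
    intro c
    have h2 : ((Fin.consEquiv (fun _ : Fin (m + 2) => Fin q)) (c, x) : Fin (m + 2) → Fin q)
        = fun i : Fin (m + 2) => if (i : ℕ) = 0 then c else (e x) ((i : ℕ) - 1) := by
      funext i
      refine Fin.cases ?_ (fun j => ?_) i
      · simp [Fin.consEquiv]
      · have := he x j
        simp [Fin.consEquiv, this]
    have h3 : (fun a : Fin (m + 1) =>
        ((Fin.consEquiv (fun _ : Fin (m + 2) => Fin q)) (c, x) : Fin (m + 2) → Fin q) a.succ)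
        = x := by
      funext a
      simp [Fin.consEquiv]
    rw [h3, h2]
  rw [Finset.sum_congr rfl (fun c _ => h1 c), ← Finset.sum_mul, hK (e x)]
  ring

theorem adj_succ {m : ℕ} (_hm : 1 ≤ m) (u : Fin (m + 2)) :
    (SimpleGraph.cycleGraph (m + 2)).dist u (u + 1) ≤ 1 := by
  have : (SimpleGraph.cycleGraph (m + 2)).Adj u (u + 1) := by
    rw [SimpleGraph.cycleGraph_adj]; right; simp
  exact (SimpleGraph.dist_eq_one_iff_adj.2 this).le

theorem adj_succ' {m : ℕ} (hm : 1 ≤ m) (u : Fin (m + 2)) :
    (SimpleGraph.cycleGraph (m + 2)).dist (u + 1) u ≤ 1 := by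
  rw [SimpleGraph.dist_comm]; exact adj_succ hm u

theorem exists_free {m : ℕ} (hm : 1 ≤ m) (A C : Finset (Fin (m + 2))) (hA : A.Nonempty)
    (hC : C.Nonempty)
    (h : ∀ a ∈ A, ∀ b ∈ C, 1 < (SimpleGraph.cycleGraph (m + 2)).dist a b) :
    ∃ p, p ∉ A ∧ p ∉ C := by
  by_contra hcon
  push Not at hcon
  obtain ⟨a, ha⟩ := hA
  obtain ⟨b, hb⟩ := hC
  have step : ∀ u, u ∈ A → u + 1 ∈ A := by
    intro u hu
    by_contra hn
    have h1 := h u hu (u + 1) (hcon _ hn)
    have h2 := adj_succ hm u
    omega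
  have all : ∀ k : Fin (m + 2), a + k ∈ A := by
    intro k
    refine Fin.induction ?_ (fun k ih => ?_) k
    · simpa using ha
    · have := step _ ih
      rw [← Fin.coeSucc_eq_succ, ← add_assoc]
      exact this
  have hbA : b ∈ A := by
    have := all (b - a)
    simpa using this
  have := h b hbA b hb
  simp at this

theorem cind : S_CIND := by
  intro hP q n f B hn G
  obtain ⟨m, rfl⟩ : ∃ m, n = m + 2 := ⟨n - 2, by omega⟩
  have hm : 1 ≤ m := by omega
  refine ⟨G.nonneg, G.tot, ?_, G.perm, ?_⟩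
  · intro y i j hadj hij
    rw [SimpleGraph.cycleGraph_adj] at hadj
    rcases hadj with h | h
    · refine G.proper y j i ?_ hij.symm
      have : i = j + 1 := by rw [← h]; abel
      rw [this, val_add_one]
    · refine G.proper y i j ?_ hij
      have : j = i + 1 := by rw [← h]; abel
      rw [this, val_add_one]
  · intro A C hAC y
    rcases A.eq_empty_or_nonempty with rfl | hA
    · simp only [Finset.notMem_empty, false_imp_iff, implies_true, true_and]
      simp only [I_true, mul_one]
      ring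
    rcases C.eq_empty_or_nonempty with rfl | hC
    · simp only [Finset.notMem_empty, false_imp_iff, implies_true, and_true]
      simp only [I_true, mul_one]
    obtain ⟨p, hpA, hpC⟩ := exists_free hm A C hA hC hAC
    obtain ⟨K, hK0, hK⟩ := G.cyc
    have hK' : ∀ x : ℕ → Fin q,
      ∑ c, f (fun i : Fin (m + 2) => if (i : ℕ) = 0 then c else x ((i : ℕ) - 1))
        = K * B (m + 1) x := hK
    let e : (Fin (m + 1) → Fin q) → ℕ → Fin q := fun z k => if h : k < m + 1 then z ⟨k, h⟩ else y 0
    have he : ∀ z (i : Fin (m + 1)), e z i = z i := by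
      intro z i
      have hi : (i : ℕ) < m + 1 := i.2
      show (if h : (i : ℕ) < m + 1 then z ⟨i, h⟩ else y 0) = z i
      rw [dif_pos hi]
    let sh : Finset (Fin (m + 2)) → Finset (Fin (m + 1)) := fun R =>
      @Finset.filter _ (fun a : Fin (m + 1) => a.succ + p ∈ R) (Classical.decPred _) Finset.univ
    have hsh : ∀ R (a : Fin (m + 1)), a ∈ sh R ↔ a.succ + p ∈ R := by
      intro R a; simp [sh]
    let y' : Fin (m + 1) → Fin q := fun a => y (a.succ + p)
    have key : ∀ (R : Finset (Fin (m + 2))), p ∉ R → ∀ z : Fin (m + 2) → Fin q,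
        ((∀ a ∈ R, z a = y a) ↔ ∀ a ∈ sh R, (fun a : Fin (m + 1) => z (a.succ + p)) a = y' a) := by
      intro R hR z
      constructor
      · intro h a ha
        exact h _ ((hsh R a).1 ha)
      · intro h a ha
        have hne : a - p ≠ 0 := by
          intro h0
          have : a = p := by
            have := sub_eq_zero.1 h0
            exact this
          exact hR (this ▸ ha)
        obtain ⟨b, hb⟩ := Fin.exists_succ_eq.2 hne
        have e1 : b.succ + p = a := by rw [hb]; simp
        have := h b ((hsh R b).2 (by rw [e1]; exact ha))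
        simp only [y', e1] at this
        exact this
    have hfar : ∀ a ∈ sh A, ∀ b ∈ sh C, (a : ℕ) + 1 < b ∨ (b : ℕ) + 1 < a := by
      intro a ha b hb
      have h1 := hAC _ ((hsh A a).1 ha) _ ((hsh C b).1 hb)
      by_contra hcon
      push Not at hcon
      rcases lt_trichotomy (a : ℕ) (b : ℕ) with hlt | heq | hgt
      · have hb1 : (b : ℕ) = a + 1 := by omega
        have e2 : b.succ + p = a.succ + p + 1 := by
          have : b.succ = a.succ + 1 := by
            apply Fin.ext
            rw [val_add_one, Fin.val_succ, Fin.val_succ, Nat.mod_eq_of_lt (by omega)]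
            omega
          rw [this]; abel
        rw [e2] at h1
        have := adj_succ hm (a.succ + p)
        omega
      · have : a = b := Fin.ext heq
        rw [this] at h1
        simp at h1
      · have hb1 : (a : ℕ) = b + 1 := by omega
        have e2 : a.succ + p = b.succ + p + 1 := by
          have : a.succ = b.succ + 1 := by
            apply Fin.ext
            rw [val_add_one, Fin.val_succ, Fin.val_succ, Nat.mod_eq_of_lt (by omega)]
            omega
          rw [this]; abel
        rw [e2] at h1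
        have := adj_succ' hm (b.succ + p)
        omega
    have hpind := hP q B G.loc G.cut (m + 1) e he (sh A) (sh C) hfar y'
    have s1 : ∑ z, f z * I ((∀ a ∈ A, z a = y a) ∧ ∀ b ∈ C, z b = y b)
        = K * ∑ x, B (m + 1) (e x) * I ((∀ a ∈ sh A, x a = y' a) ∧ ∀ b ∈ sh C, x b = y' b) := by
      rw [← main_sum G p e he K hK'
        (fun x => (∀ a ∈ sh A, x a = y' a) ∧ ∀ b ∈ sh C, x b = y' b)]
      refine Finset.sum_congr rfl (fun z _ => ?_)
      rw [I_congr (and_congr (key A hpA z) (key C hpC z))]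
    have s2 : ∑ z, f z = K * ∑ x, B (m + 1) (e x) := by
      have := main_sum G p e he K hK' (fun _ => True)
      simpa only [I_true, mul_one] using this
    have s3 : ∑ z, f z * I (∀ a ∈ A, z a = y a)
        = K * ∑ x, B (m + 1) (e x) * I (∀ a ∈ sh A, x a = y' a) := by
      rw [← main_sum G p e he K hK' (fun x => ∀ a ∈ sh A, x a = y' a)]
      refine Finset.sum_congr rfl (fun z _ => ?_)
      rw [I_congr (key A hpA z)]
    have s4 : ∑ z, f z * I (∀ b ∈ C, z b = y b)
        = K * ∑ x, B (m + 1) (e x) * I (∀ b ∈ sh C, x b = y' b) := by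
      rw [← main_sum G p e he K hK' (fun x => ∀ b ∈ sh C, x b = y' b)]
      refine Finset.sum_congr rfl (fun z _ => ?_)
      rw [I_congr (key C hpC z)]
    rw [s1, s2, s3, s4]
    linear_combination K ^ 2 * hpind

end Pool.Agent.W340.CY
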